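import Mathlib

set_option autoImplicit false

/-!
# MP_fc9dee_ag: a symplectic resolution with `HP_0` different from the top cohomology

Let `R = ℂ[x, y]` with the Poisson bracket `{x, y} = 1` and `A = ℂ + m²` the algebra of the
polynomials without linear terms. Then `A` is a Poisson subalgebra, the affine plane is a symplectic
resolution of the irreducible affine Poisson variety `X = Spec A` (the morphism is finite and an
isomorphism outside of one point), `{A, A} = m²`, so that `HP_0(X) = A/{A, A}` has dimension 1, while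
the second cohomology of the affine plane is zero.
-/

namespace Pool.Agent.Results.MP_fc9dee_ag.CuspidalPlane

open MvPolynomial

/-- The coordinate ring of the affine plane. -/
abbrev R : Type := MvPolynomial (Fin 2) ℂ

/-- The Poisson bracket of the symplectic affine plane, `{x, y} = 1`. -/
noncomputable def br (f g : R) : R := pderiv 0 f * pderiv 1 g - pderiv 1 f * pderiv 0 g

/-- The morphism from the affine plane to `Spec A` given by the inclusion `A ⊆ R` is a symplectic
resolution of the irreducible affine Poisson variety `Spec A`: `A` is a finitely generated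
Poisson subalgebra of `R` (so the morphism is Poisson), `R` is finite over `A` (so the morphism is
finite, in particular proper) and `R` and `A` agree after inverting a nonzero element `s` of `A` (so it
is birational). -/
structure IsResolution (A : Subalgebra ℂ R) : Prop where
  poisson : ∀ f ∈ A, ∀ g ∈ A, br f g ∈ A
  fg : A.FG
  finite : Module.Finite A R
  birational : ∃ s ∈ A, s ≠ 0 ∧ ∀ f : R, ∃ n : ℕ, s ^ n * f ∈ A

/-- The subspace `{A, A}` spanned by the brackets. -/
noncomputable def brackets (A : Subalgebra ℂ R) : Submodule ℂ A :=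
  Submodule.span ℂ {h : A | ∃ f ∈ A, ∃ g ∈ A, (h : R) = br f g}

/-- `HP_0(Spec A) = A/{A, A}`. -/
abbrev HP0 (A : Subalgebra ℂ R) : Type := A ⧸ brackets A

/-- The exact algebraic 2-forms `d(g dy - h dx) = (∂g/∂x + ∂h/∂y) dx dy` on the affine plane, as a
subspace of the space `R` of all 2-forms `f dx dy`. -/
noncomputable def exactForms : Submodule ℂ R :=
  LinearMap.range (pderiv (R := ℂ) (0 : Fin 2)).toLinearMap ⊔
    LinearMap.range (pderiv (R := ℂ) (1 : Fin 2)).toLinearMap

/-- The second (algebraic de Rham) cohomology of the affine plane. -/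
abbrev H2 : Type := R ⧸ exactForms

/-- the value at the origin of a partial derivative -/
noncomputable def D (i : Fin 2) (f : R) : ℂ := eval (0 : Fin 2 → ℂ) (pderiv i f)

theorem D_mul (i : Fin 2) (f g : R) : D i (f * g) =
    eval (0 : Fin 2 → ℂ) f * D i g + eval (0 : Fin 2 → ℂ) g * D i f := by
  unfold D
  rw [Derivation.leibniz, map_add, smul_eq_mul, smul_eq_mul, map_mul, map_mul]

theorem D_add (i : Fin 2) (f g : R) : D i (f + g) = D i f + D i g := by
  unfold D; rw [map_add, map_add]

theorem D_sub (i : Fin 2) (f g : R) : D i (f - g) = D i f - D i g := by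
  unfold D; rw [map_sub, map_sub]

theorem D_C (i : Fin 2) (c : ℂ) : D i (C c) = 0 := by
  unfold D; rw [pderiv_C, map_zero]

theorem D_X (i j : Fin 2) : D i (X j) = if i = j then 1 else 0 := by
  unfold D
  rw [pderiv_X]
  by_cases h : i = j
  · subst h; simp
  · simp [h, eq_comm]

/-- the algebra `ℂ + m²` -/
noncomputable def A2 : Subalgebra ℂ R where
  carrier := {f | ∀ i, D i f = 0}
  mul_mem' := fun {f g} hf hg i => by
    rw [D_mul, hf i, hg i]; ring
  add_mem' := fun {f g} hf hg i => by
    rw [D_add, hf i, hg i]; ring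
  algebraMap_mem' := fun c i => D_C i c

theorem mem_A2 {f : R} : f ∈ A2 ↔ ∀ i, D i f = 0 := Iff.rfl

theorem br_eval {f g : R} (hf : f ∈ A2) : eval (0 : Fin 2 → ℂ) (br f g) = 0 := by
  have h0 : eval (0 : Fin 2 → ℂ) (pderiv 0 f) = 0 := hf 0
  have h1 : eval (0 : Fin 2 → ℂ) (pderiv 1 f) = 0 := hf 1
  unfold br
  rw [map_sub, map_mul, map_mul, h0, h1]; ring

theorem br_mem {f g : R} (hf : f ∈ A2) (hg : g ∈ A2) : br f g ∈ A2 := by
  intro i
  have h0 : eval (0 : Fin 2 → ℂ) (pderiv 0 f) = 0 := hf 0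
  have h1 : eval (0 : Fin 2 → ℂ) (pderiv 1 f) = 0 := hf 1
  have h2 : eval (0 : Fin 2 → ℂ) (pderiv 0 g) = 0 := hg 0
  have h3 : eval (0 : Fin 2 → ℂ) (pderiv 1 g) = 0 := hg 1
  unfold br
  rw [D_sub, D_mul, D_mul, h0, h1, h2, h3]; ring

theorem X0sq_mul_mem (f : R) : (X 0 : R) ^ 2 * f ∈ A2 := by
  intro i
  have h1 : eval (0 : Fin 2 → ℂ) (X 0 : R) = 0 := by simp
  rw [D_mul, pow_two, D_mul, map_mul, h1]; ring

theorem res : IsResolution A2 := by
  have hfin : Module.Finite A2 R := by
    refine ⟨⟨{1, X 0, X 1}, ?_⟩⟩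
    rw [eq_top_iff]
    intro f _
    have hx : ∀ j : Fin 2, (X j : R) ∈ Submodule.span A2 (({1, X 0, X 1} : Finset R) : Set R) := by
      intro j
      apply Submodule.subset_span
      fin_cases j <;> simp
    have h1 : (1 : R) ∈ Submodule.span A2 (({1, X 0, X 1} : Finset R) : Set R) := by
      apply Submodule.subset_span; simp
    have hg : f - C (D 0 f) * X 0 - C (D 1 f) * X 1 ∈ A2 := by
      intro i
      rw [D_sub, D_sub, D_mul, D_mul, D_C, D_C, D_X, D_X]
      fin_cases i <;> simp
    have hC : ∀ c : ℂ, (C c : R) ∈ A2 := fun c => A2.algebraMap_mem c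
    have : f = (⟨_, hg⟩ : A2) • (1 : R) + ((⟨_, hC (D 0 f)⟩ : A2) • (X 0 : R) +
        (⟨_, hC (D 1 f)⟩ : A2) • (X 1 : R)) := by
      show f = (f - C (D 0 f) * X 0 - C (D 1 f) * X 1) * 1 + (C (D 0 f) * X 0 + C (D 1 f) * X 1)
      ring
    rw [this]
    exact Submodule.add_mem _ (Submodule.smul_mem _ _ h1)
      (Submodule.add_mem _ (Submodule.smul_mem _ _ (hx 0)) (Submodule.smul_mem _ _ (hx 1)))
  refine ⟨fun f hf g hg => br_mem hf hg, ?_, hfin, ⟨X 0 ^ 2, ?_, ?_, fun f => ⟨1, ?_⟩⟩⟩
  · have h1 : (⊤ : Subalgebra ℂ A2).FG := by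
      refine fg_of_fg_of_fg ℂ A2 R ?_ ?_ ?_
      · exact Algebra.FiniteType.out
      · exact hfin.fg_top
      · exact Subtype.val_injective
    exact (Subalgebra.fg_top A2).1 h1
  · have := X0sq_mul_mem 1
    rwa [mul_one] at this
  · exact pow_ne_zero _ (X_ne_zero 0)
  · rw [pow_one]; exact X0sq_mul_mem f

/-- the monomials -/
noncomputable def mon (a b : ℕ) : R := X 0 ^ a * X 1 ^ b

theorem pderiv0_mon (a b : ℕ) : pderiv 0 (mon a b) = C (a : ℂ) * (X 0 ^ (a - 1) * X 1 ^ b) := by
  unfold mon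
  rw [Derivation.leibniz, Derivation.leibniz_pow, Derivation.leibniz_pow, pderiv_X_self,
    pderiv_X_of_ne (by decide : (1 : Fin 2) ≠ 0)]
  simp only [smul_eq_mul, nsmul_eq_mul, mul_zero, smul_zero, zero_add, mul_one]
  rw [← map_natCast (C : ℂ →+* R)]
  ring

theorem pderiv1_mon (a b : ℕ) : pderiv 1 (mon a b) = C (b : ℂ) * (X 0 ^ a * X 1 ^ (b - 1)) := by
  unfold mon
  rw [Derivation.leibniz, Derivation.leibniz_pow, Derivation.leibniz_pow, pderiv_X_self,
    pderiv_X_of_ne (by decide : (0 : Fin 2) ≠ 1)]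
  simp only [smul_eq_mul, nsmul_eq_mul, mul_zero, smul_zero, add_zero, mul_one]
  rw [← map_natCast (C : ℂ →+* R)]
  ring

theorem eval_mon {a b : ℕ} (h : 1 ≤ a + b) : eval (0 : Fin 2 → ℂ) (mon a b) = 0 := by
  unfold mon
  rw [map_mul, map_pow, map_pow, eval_X, eval_X]
  rcases Nat.eq_zero_or_pos a with ha | ha
  · have hb : b ≠ 0 := by omega
    simp [hb]
  · simp [ha.ne']

theorem D_mon {a b : ℕ} (h : 2 ≤ a + b) (i : Fin 2) : D i (mon a b) = 0 := by
  unfold D
  fin_cases i
  · show eval (0 : Fin 2 → ℂ) (pderiv 0 (mon a b)) = 0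
    rw [pderiv0_mon]
    rcases Nat.eq_zero_or_pos a with ha | ha
    · simp [ha]
    · have : eval (0 : Fin 2 → ℂ) (mon (a - 1) b) = 0 := eval_mon (by omega)
      unfold mon at this
      rw [map_mul, this, mul_zero]
  · show eval (0 : Fin 2 → ℂ) (pderiv 1 (mon a b)) = 0
    rw [pderiv1_mon]
    rcases Nat.eq_zero_or_pos b with hb | hb
    · simp [hb]
    · have : eval (0 : Fin 2 → ℂ) (mon a (b - 1)) = 0 := eval_mon (by omega)
      unfold mon at this
      rw [map_mul, this, mul_zero]

theorem mon_mem {a b : ℕ} (h : 2 ≤ a + b) : mon a b ∈ A2 := fun i => D_mon h i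

/-- the image of the span of the brackets in `R` -/
noncomputable def P' : Submodule ℂ R := Submodule.map A2.val.toLinearMap (brackets A2)

theorem br_mem_P' {f g : R} (hf : f ∈ A2) (hg : g ∈ A2) : br f g ∈ P' :=
  ⟨⟨br f g, br_mem hf hg⟩, Submodule.subset_span ⟨f, hf, g, hg, rfl⟩, rfl⟩

theorem mon_mem_P' {a b : ℕ} (h : 2 ≤ a + b) : mon a b ∈ P' := by
  by_cases hab : a = b
  · subst hab
    have ha : 1 ≤ a := by omega
    have h1 := br_mem_P' (mon_mem (show 2 ≤ 2 + 0 by norm_num))
      (mon_mem (show 2 ≤ (a - 1) + (a + 1) by omega))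
    have h2 : br (mon 2 0) (mon (a - 1) (a + 1)) = (2 * ((a : ℂ) + 1)) • mon a a := by
      unfold br
      rw [pderiv0_mon, pderiv1_mon, pderiv1_mon]
      rw [MvPolynomial.smul_eq_C_mul]
      unfold mon
      have e1 : a - 1 + 1 = a := by omega
      have e2 : (X 0 : R) * X 0 ^ (a - 1) = X 0 ^ a := by rw [← pow_succ', e1]
      simp only [Nat.cast_zero, map_zero, zero_mul, sub_zero, pow_zero, mul_one,
        Nat.add_sub_cancel]
      have e3 : (2 : ℕ) - 1 = 1 := rfl
      rw [e3, pow_one, ← e2]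
      push_cast
      rw [map_mul]
      ring
    rw [h2] at h1
    have h3 : (2 * ((a : ℂ) + 1)) ≠ 0 := by
      refine mul_ne_zero two_ne_zero ?_
      exact_mod_cast Nat.succ_ne_zero a
    have h4 := P'.smul_mem (2 * ((a : ℂ) + 1))⁻¹ h1
    rwa [smul_smul, inv_mul_cancel₀ h3, one_smul] at h4
  · have h1 := br_mem_P' (mon_mem (show 2 ≤ 1 + 1 by norm_num)) (mon_mem h)
    have h2 : br (mon 1 1) (mon a b) = ((b : ℂ) - a) • mon a b := by
      unfold br
      rw [pderiv0_mon, pderiv1_mon, pderiv0_mon, pderiv1_mon, MvPolynomial.smul_eq_C_mul]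
      unfold mon
      have e1 : C (b : ℂ) * ((X 1 : R) * X 1 ^ (b - 1)) = C (b : ℂ) * X 1 ^ b := by
        rcases Nat.eq_zero_or_pos b with hb | hb
        · simp [hb]
        · rw [← pow_succ', Nat.sub_add_cancel hb]
      have e2 : C (a : ℂ) * ((X 0 : R) * X 0 ^ (a - 1)) = C (a : ℂ) * X 0 ^ a := by
        rcases Nat.eq_zero_or_pos a with ha | ha
        · simp [ha]
        · rw [← pow_succ', Nat.sub_add_cancel ha]
      simp only [Nat.cast_one, map_one, one_mul, Nat.sub_self, pow_zero, pow_one, mul_one]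
      rw [map_sub]
      linear_combination X 0 ^ a * e1 - X 1 ^ b * e2
    rw [h2] at h1
    have h3 : ((b : ℂ) - a) ≠ 0 := by
      rw [sub_ne_zero]
      intro h0
      exact hab (by exact_mod_cast h0.symm)
    have h4 := P'.smul_mem ((b : ℂ) - a)⁻¹ h1
    rwa [smul_smul, inv_mul_cancel₀ h3, one_smul] at h4

/-- the part of degree at least two -/
noncomputable def L (f : R) : R :=
  f - C (eval (0 : Fin 2 → ℂ) f) - C (D 0 f) * X 0 - C (D 1 f) * X 1

theorem L_add (f g : R) : L (f + g) = L f + L g := by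
  unfold L; rw [D_add, D_add, map_add, map_add, map_add, map_add]; ring

theorem L_mon (c : ℂ) (a b : ℕ) : L (C c * mon a b) ∈ P' := by
  have hC : ∀ (i : Fin 2) (f : R), D i (C c * f) = c * D i f := by
    intro i f
    rw [D_mul, D_C, eval_C]; ring
  by_cases h : 2 ≤ a + b
  · have : L (C c * mon a b) = c • mon a b := by
      unfold L
      rw [hC, hC, D_mon h, D_mon h, map_mul, eval_mon (by omega), MvPolynomial.smul_eq_C_mul]
      simp
    rw [this]
    exact P'.smul_mem _ (mon_mem_P' h)
  · have h0 : L (C c * mon a b) = 0 := by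
      have : (a = 0 ∧ b = 0) ∨ (a = 1 ∧ b = 0) ∨ (a = 0 ∧ b = 1) := by omega
      rcases this with ⟨rfl, rfl⟩ | ⟨rfl, rfl⟩ | ⟨rfl, rfl⟩
      · have e : mon 0 0 = C 1 := by unfold mon; simp
        unfold L
        rw [hC, hC, e, D_C, D_C, map_mul, eval_C, eval_C]
        simp
      · have e : mon 1 0 = X 0 := by unfold mon; simp
        unfold L
        rw [hC, hC, e, D_X, D_X, map_mul, eval_C, eval_X]
        simp
      · have e : mon 0 1 = X 1 := by unfold mon; simp
        unfold L
        rw [hC, hC, e, D_X, D_X, map_mul, eval_C, eval_X]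
        simp
    rw [h0]; exact P'.zero_mem

theorem monomial_mon (m : Fin 2 →₀ ℕ) (c : ℂ) : monomial m c = C c * mon (m 0) (m 1) := by
  rw [monomial_eq, Finsupp.prod_fintype _ _ (fun i => pow_zero _), Fin.prod_univ_two]
  rfl

theorem L_mem (f : R) : L f ∈ P' := by
  induction f using MvPolynomial.induction_on' with
  | monomial m c => rw [monomial_mon]; exact L_mon c _ _
  | add f g hf hg => rw [L_add]; exact P'.add_mem hf hg

/-- the value at the origin, as a linear map on `A2` -/
noncomputable def ev : A2 →ₗ[ℂ] ℂ where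
  toFun f := eval (0 : Fin 2 → ℂ) (f : R)
  map_add' f g := by
    show eval (0 : Fin 2 → ℂ) ((f : R) + (g : R)) = _
    rw [map_add]
  map_smul' c f := by
    show eval (0 : Fin 2 → ℂ) (c • (f : R)) = _
    rw [MvPolynomial.smul_eq_C_mul, map_mul, eval_C]; rfl

theorem ev_apply (f : A2) : ev f = eval (0 : Fin 2 → ℂ) (f : R) := rfl

theorem brackets_eq : brackets A2 = LinearMap.ker ev := by
  apply le_antisymm
  · refine Submodule.span_le.2 ?_
    rintro h ⟨f, hf, g, _, hfg⟩
    show ev h = 0
    rw [ev_apply, hfg, br_eval hf]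
  · intro h hh
    have h0 : eval (0 : Fin 2 → ℂ) (h : R) = 0 := by rw [← ev_apply]; exact hh
    have h1 : L (h : R) = h := by
      unfold L
      rw [h0, h.2 0, h.2 1]; simp
    have h2 := L_mem (h : R)
    rw [h1] at h2
    obtain ⟨h', hh', he⟩ := h2
    have : h' = h := Subtype.ext he
    rw [← this]; exact hh'

theorem HP0_dim : Module.finrank ℂ (HP0 A2) = 1 := by
  have hs : Function.Surjective ev := by
    intro c
    refine ⟨⟨C c, A2.algebraMap_mem c⟩, ?_⟩
    rw [ev_apply]
    exact eval_C c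
  have e1 : (HP0 A2) ≃ₗ[ℂ] (A2 ⧸ LinearMap.ker ev) := Submodule.quotEquivOfEq _ _ brackets_eq
  rw [(e1.trans (ev.quotKerEquivOfSurjective hs)).finrank_eq, Module.finrank_self]

theorem exact_top : exactForms = ⊤ := by
  rw [eq_top_iff]
  intro f _
  induction f using MvPolynomial.induction_on' with
  | monomial m c =>
    rw [monomial_mon]
    refine Submodule.mem_sup_left ⟨C (c / ((m 0 : ℂ) + 1)) * mon (m 0 + 1) (m 1), ?_⟩
    show pderiv 0 (C (c / ((m 0 : ℂ) + 1)) * mon (m 0 + 1) (m 1)) = _
    rw [Derivation.leibniz, pderiv_C, pderiv0_mon, smul_zero, add_zero, smul_eq_mul, ← mul_assoc,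
      ← map_mul, Nat.add_sub_cancel]
    unfold mon
    congr 2
    push_cast
    have : ((m 0 : ℂ) + 1) ≠ 0 := by exact_mod_cast Nat.succ_ne_zero (m 0)
    field_simp
  | add f g hf hg => exact Submodule.add_mem _ (hf trivial) (hg trivial)

/-- There is a symplectic resolution of an irreducible affine Poisson variety `Spec A` by the affine
plane such that `HP_0(Spec A) = A/{A, A}` has dimension 1, whereas the second cohomology of the
affine plane is zero. -/
theorem result : ∃ A : Subalgebra ℂ R, IsResolution A ∧ Module.finrank ℂ (HP0 A) = 1 ∧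
    Module.finrank ℂ H2 = 0 := by
  refine ⟨A2, res, HP0_dim, ?_⟩
  have : Subsingleton H2 := Submodule.Quotient.subsingleton_iff.2 exact_top
  exact Module.finrank_zero_of_subsingleton

end Pool.Agent.Results.MP_fc9dee_ag.CuspidalPlane
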